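import Mathlib
import Pool.Agent.S11520
import Pool.Agent.H891R3.CutK5

/-! For every `k ≥ 3` the pair `(1/k, 1/k)` is not good in the plane. -/

set_option autoImplicit false

open MeasureTheory

namespace Pool.Agent.Results.MP_ced1be_co.AllK

/-- For every `k ≥ 3` there are two measurable plane sets of finite area such that no open disc and
no open half-plane contains exactly the fraction `1 / k` of the area of both. -/
theorem result : ∀ k : ℕ, 3 ≤ k → ∃ A₁ A₂ : Set (EuclideanSpace ℝ (Fin 2)),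
    MeasurableSet A₁ ∧ MeasurableSet A₂ ∧ volume A₁ < ⊤ ∧ volume A₂ < ⊤ ∧
    ¬ ∃ S : Set (EuclideanSpace ℝ (Fin 2)),
      ((∃ (p : EuclideanSpace ℝ (Fin 2)) (r : ℝ), 0 < r ∧ S = Metric.ball p r) ∨
       (∃ (v : EuclideanSpace ℝ (Fin 2)) (c : ℝ), v ≠ 0 ∧
          S = {x : EuclideanSpace ℝ (Fin 2) | inner ℝ v x < c})) ∧
      volume (A₁ ∩ S) = volume A₁ / k ∧
      volume (A₂ ∩ S) = volume A₂ / k := by
  intro k hk
  rcases Nat.lt_or_ge k 4 with h4 | h4
  · have hk3 : k = 3 := by omega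
    subst hk3
    have h := Pool.Agent.S11520.result
    push Not at h
    obtain ⟨A₁, A₂, m1, m2, f1, f2, h⟩ := h
    refine ⟨A₁, A₂, m1, m2, f1, f2, ?_⟩
    rintro ⟨S, hS, h1, h2⟩
    exact h S hS (by simpa using h1) (by simpa using h2)
  · exact Pool.Agent.H891R3.CutK.main h4

end Pool.Agent.Results.MP_ced1be_co.AllK
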